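import Pool.Agent.Q296.BD.Pt
import Pool.Agent.W190.A4

set_option autoImplicit false

/-! # Project BD, job P4: decay away from the zeros -/

namespace Pool.Agent.Q296.BD

open Complex MeasureTheory Filter Topology Set
open Pool.Agent.Q286.BD

/-! ## the Laplace transform -/

lemma Wt.integrable {β : ℝ} {φ : ℝ → ℝ} (hφ : Wt β φ) : Integrable φ := by
  obtain ⟨ε, hε, hs⟩ := hφ.supp
  apply hφ.cont.integrable_of_hasCompactSupport
  apply HasCompactSupport.intro (isCompact_Icc (a := ε) (b := 1))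
  intro u hu
  by_contra h
  exact hu (hs u h)

lemma lap_zero {β : ℝ} {φ : ℝ → ℝ} (hφ : Wt β φ) : Lap φ 0 = 1 := by
  unfold Lap
  simp only [zero_mul, Complex.exp_zero, mul_one]
  rw [integral_complex_ofReal, hφ.mass]
  simp

lemma lap_diff {β : ℝ} {φ : ℝ → ℝ} (hφ : Wt β φ) : Differentiable ℂ (Lap φ) := by
  intro z0
  obtain ⟨ε, hε, hs⟩ := hφ.supp
  have hint := Wt.integrable hφ
  have hbd : ∀ (z : ℂ) (u : ℝ), ‖(φ u : ℂ) * cexp (z * u)‖ ≤ Real.exp ‖z‖ * |φ u| := by
    intro z u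
    rcases eq_or_ne (φ u) 0 with h | h
    · simp [h]
    · obtain ⟨h1, h2⟩ := hs u h
      rw [norm_mul, Complex.norm_real, Real.norm_eq_abs, mul_comm]
      apply mul_le_mul_of_nonneg_right _ (abs_nonneg _)
      rw [Complex.norm_exp]
      apply Real.exp_le_exp.2
      have h3 : (z * (u : ℂ)).re = z.re * u := by simp
      rw [h3]
      have h4 : z.re ≤ ‖z‖ := Complex.re_le_norm z
      have h5 : 0 ≤ ‖z‖ := norm_nonneg z
      nlinarith
  have hmeas : ∀ z : ℂ, AEStronglyMeasurable (fun u : ℝ => (φ u : ℂ) * cexp (z * u)) volume := by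
    intro z
    have := hφ.cont
    exact (by fun_prop : Continuous fun u : ℝ => (φ u : ℂ) * cexp (z * u)).aestronglyMeasurable
  have h := hasDerivAt_integral_of_dominated_loc_of_deriv_le
    (F := fun (z : ℂ) (u : ℝ) => (φ u : ℂ) * cexp (z * u))
    (F' := fun (z : ℂ) (u : ℝ) => (φ u : ℂ) * cexp (z * u) * u) (x₀ := z0) (s := Metric.ball z0 1)
    (bound := fun u => Real.exp (‖z0‖ + 1) * |φ u|) (μ := volume)
    (Metric.ball_mem_nhds z0 one_pos) (Eventually.of_forall hmeas)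
    ?_ ?_ ?_ ?_ ?_
  · exact h.2.differentiableAt
  · refine Integrable.mono' (hint.abs.const_mul (Real.exp ‖z0‖)) (hmeas z0) ?_
    exact Eventually.of_forall fun u => hbd z0 u
  · have := hφ.cont
    exact (by fun_prop : Continuous fun u : ℝ => (φ u : ℂ) * cexp (z0 * u) * u).aestronglyMeasurable
  · refine Eventually.of_forall fun u z hz => ?_
    rcases eq_or_ne (φ u) 0 with h | h
    · simp [h]
    · obtain ⟨h1, h2⟩ := hs u h
      have h3 : ‖z‖ ≤ ‖z0‖ + 1 := by
        have h4 : ‖z - z0‖ < 1 := by simpa [dist_eq_norm] using hz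
        have h5 : ‖z‖ ≤ ‖z - z0‖ + ‖z0‖ := by
          have := norm_add_le (z - z0) z0
          simpa using this
        linarith
      rw [norm_mul, Complex.norm_real, Real.norm_eq_abs, abs_of_pos (by linarith)]
      have h6 := hbd z u
      have h7 : Real.exp ‖z‖ ≤ Real.exp (‖z0‖ + 1) := Real.exp_le_exp.2 h3
      have h8 : Real.exp ‖z‖ * |φ u| ≤ Real.exp (‖z0‖ + 1) * |φ u| :=
        mul_le_mul_of_nonneg_right h7 (abs_nonneg _)
      calc ‖(φ u : ℂ) * cexp (z * u)‖ * u ≤ ‖(φ u : ℂ) * cexp (z * u)‖ * 1 :=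
            mul_le_mul_of_nonneg_left h2 (norm_nonneg _)
        _ ≤ _ := by linarith
  · exact hint.abs.const_mul _
  · refine Eventually.of_forall fun u z _ => ?_
    have h1 : HasDerivAt (fun z : ℂ => z * (u : ℂ)) (u : ℂ) z := by
      simpa using (hasDerivAt_id z).mul_const (u : ℂ)
    have h2 := (h1.cexp).const_mul (φ u : ℂ)
    simpa [mul_assoc] using h2

/-! ## the contour -/

lemma contour {Ω : Set ℂ} {G : ℂ → ℂ} (hG : DifferentiableOn ℂ G Ω) (hΩ : IsOpen Ω)
    {a a' h B1 B2 : ℝ} (ha : 0 < a) (ha' : 0 < a') (hh : 0 < h)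
    (hsub : ∀ z : ℂ, -a' ≤ z.re → z.re ≤ a → -h ≤ z.im → z.im ≤ h → z ∈ Ω)
    (hB1 : ∀ x : ℝ, -a' ≤ x → x ≤ a → ∀ y : ℝ, (y = h ∨ y = -h) →
      ‖((x : ℂ) + (y : ℂ) * I)⁻¹ * G ((x : ℂ) + (y : ℂ) * I)‖ ≤ B1)
    (hB2 : ∀ y : ℝ, -h ≤ y → y ≤ h →
      ‖(((-a' : ℝ) : ℂ) + (y : ℂ) * I)⁻¹ * G (((-a' : ℝ) : ℂ) + (y : ℂ) * I)‖ ≤ B2) :
    ‖1 / (2 * (Real.pi : ℂ)) * (∫ y in (-h)..h, ((a : ℂ) + (y : ℂ) * I)⁻¹ * G ((a : ℂ) + (y : ℂ) * I)) -
      G 0‖ ≤ (a + a') * B1 + h * B2 := by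
  have h1 := Pool.Agent.W190.rect_res hG hΩ (x₀ := -a') (x₁ := a) (y₀ := -h) (y₁ := h) (w := 0)
    (by simpa using ha') (by simpa using ha) (by simpa using hh) (by simpa using hh) hsub
  unfold Pool.Agent.H810R2.CSd.rect at h1
  simp only [sub_zero, smul_eq_mul] at h1
  set T1 := ∫ x in (-a')..a, ((x : ℂ) + ((-h : ℝ) : ℂ) * I)⁻¹ * G ((x : ℂ) + ((-h : ℝ) : ℂ) * I)
  set T2 := ∫ x in (-a')..a, ((x : ℂ) + (h : ℂ) * I)⁻¹ * G ((x : ℂ) + (h : ℂ) * I)
  set T3 := ∫ y in (-h)..h, ((a : ℂ) + (y : ℂ) * I)⁻¹ * G ((a : ℂ) + (y : ℂ) * I)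
  set T4 := ∫ y in (-h)..h, (((-a' : ℝ) : ℂ) + (y : ℂ) * I)⁻¹ * G (((-a' : ℝ) : ℂ) + (y : ℂ) * I)
  have b1 : ‖T1‖ ≤ B1 * (a + a') := by
    have := intervalIntegral.norm_integral_le_of_norm_le_const (a := -a') (b := a) (C := B1)
      (f := fun x : ℝ => ((x : ℂ) + ((-h : ℝ) : ℂ) * I)⁻¹ * G ((x : ℂ) + ((-h : ℝ) : ℂ) * I)) (by
        intro x hx
        rw [uIoc_of_le (by linarith)] at hx
        exact hB1 x hx.1.le hx.2 (-h) (Or.inr rfl))
    rwa [sub_neg_eq_add, abs_of_pos (by linarith)] at this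
  have b2 : ‖T2‖ ≤ B1 * (a + a') := by
    have := intervalIntegral.norm_integral_le_of_norm_le_const (a := -a') (b := a) (C := B1)
      (f := fun x : ℝ => ((x : ℂ) + (h : ℂ) * I)⁻¹ * G ((x : ℂ) + (h : ℂ) * I)) (by
        intro x hx
        rw [uIoc_of_le (by linarith)] at hx
        exact hB1 x hx.1.le hx.2 h (Or.inl rfl))
    rwa [sub_neg_eq_add, abs_of_pos (by linarith)] at this
  have b4 : ‖T4‖ ≤ B2 * (2 * h) := by
    have := intervalIntegral.norm_integral_le_of_norm_le_const (a := -h) (b := h) (C := B2)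
      (f := fun y : ℝ => (((-a' : ℝ) : ℂ) + (y : ℂ) * I)⁻¹ * G (((-a' : ℝ) : ℂ) + (y : ℂ) * I)) (by
        intro y hy
        rw [uIoc_of_le (by linarith)] at hy
        exact hB2 y hy.1.le hy.2)
    rw [sub_neg_eq_add, abs_of_pos (by linarith)] at this
    linarith
  have hpi : (Real.pi : ℂ) ≠ 0 := by exact_mod_cast Real.pi_ne_zero
  have h2 : 1 / (2 * (Real.pi : ℂ)) * T3 - G 0 =
      1 / (2 * (Real.pi : ℂ)) * (T4 + I * (T1 - T2)) := by
    have h3 : T3 = 2 * Real.pi * G 0 + T4 + I * (T1 - T2) := by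
      have h4 : I * T3 = 2 * Real.pi * I * G 0 + I * T4 - (T1 - T2) := by
        linear_combination h1
      have h5 : T3 = -I * (I * T3) := by
        rw [← mul_assoc, neg_mul, I_mul_I, neg_neg, one_mul]
      rw [h5, h4]
      have h6 : I * I = -1 := I_mul_I
      linear_combination (-(2 * Real.pi * G 0) - T4) * h6
    rw [h3]
    field_simp
    ring
  rw [h2, norm_mul]
  have h8 : ‖(1 / (2 * (Real.pi : ℂ)))‖ ≤ 1 / 2 := by
    rw [norm_div, norm_one, norm_mul, Complex.norm_real]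
    simp only [Complex.norm_ofNat, Real.norm_eq_abs, abs_of_pos Real.pi_pos]
    apply one_div_le_one_div_of_le (by norm_num)
    linarith [Real.pi_gt_three]
  have h9 : ‖T4 + I * (T1 - T2)‖ ≤ B2 * (2 * h) + (B1 * (a + a') + B1 * (a + a')) := by
    refine (norm_add_le _ _).trans (add_le_add b4 ?_)
    rw [norm_mul, norm_I, one_mul]
    exact (norm_sub_le _ _).trans (add_le_add b1 b2)
  calc _ ≤ 1 / 2 * (B2 * (2 * h) + (B1 * (a + a') + B1 * (a + a'))) :=
        mul_le_mul h8 h9 (norm_nonneg _) (by norm_num)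
    _ = _ := by ring

/-! ## the tail -/

lemma tail {F : ℝ → ℂ} (hF : Integrable F) {M c β h : ℝ} (hM : 0 ≤ M) (hc : 0 < c) (hβ : 0 < β)
    (hh : 0 < h) (hb : ∀ K, ‖F K‖ ≤ M * Real.exp (-(c * |K| ^ β))) :
    ‖(∫ K, F K) - ∫ K in (-h)..h, F K‖ ≤
      M * Real.exp (-(c / 2 * h ^ β)) * ∫ K : ℝ, Real.exp (-(c / 2 * |K| ^ β)) := by
  have hint := integrable_gev (half_pos hc) hβ
  rw [intervalIntegral.integral_of_le (by linarith)]
  have h1 := integral_add_compl (measurableSet_Ioc (a := -h) (b := h)) hF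
  have h2 : (∫ K, F K) - ∫ K in Ioc (-h) h, F K = ∫ K in (Ioc (-h) h)ᶜ, F K := by
    rw [← h1]; ring
  rw [h2]
  have h3 : ‖∫ K in (Ioc (-h) h)ᶜ, F K‖ ≤
      ∫ K in (Ioc (-h) h)ᶜ, M * Real.exp (-(c / 2 * h ^ β)) * Real.exp (-(c / 2 * |K| ^ β)) := by
    apply norm_integral_le_of_norm_le (hint.const_mul _).integrableOn
    rw [ae_restrict_iff' measurableSet_Ioc.compl]
    refine Eventually.of_forall fun K hK => ?_
    have hK' : h ≤ |K| := by
      rw [mem_compl_iff, mem_Ioc, not_and_or, not_lt, not_le] at hK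
      rcases hK with hK | hK
      · rw [abs_of_nonpos (by linarith)]; linarith
      · rw [abs_of_pos (by linarith)]; linarith
    refine (hb K).trans ?_
    rw [mul_assoc]
    apply mul_le_mul_of_nonneg_left _ hM
    rw [← Real.exp_add]
    apply Real.exp_le_exp.2
    have h4 : h ^ β ≤ |K| ^ β := Real.rpow_le_rpow hh.le hK' hβ.le
    nlinarith
  refine h3.trans ?_
  have h4 : ∫ K in (Ioc (-h) h)ᶜ, M * Real.exp (-(c / 2 * h ^ β)) * Real.exp (-(c / 2 * |K| ^ β)) ≤
      ∫ K : ℝ, M * Real.exp (-(c / 2 * h ^ β)) * Real.exp (-(c / 2 * |K| ^ β)) :=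
    setIntegral_le_integral (hint.const_mul _) (Eventually.of_forall fun K => by positivity)
  refine h4.trans (le_of_eq ?_)
  rw [integral_const_mul]

/-- polynomials against `exp (-κ D ^ r)` -/
lemma poly_exp (κ r : ℝ) (hκ : 0 < κ) (hr : 0 < r) :
    ∃ C : ℝ, 0 < C ∧ ∀ D : ℝ, 0 ≤ D → (1 + D) ^ 2 * Real.exp (-(κ * D ^ r)) ≤ C := by
  have hb : ∃ C : ℝ, 0 ≤ C ∧ ∀ D : ℝ, 0 ≤ D → 2 * Real.log (1 + D) - κ * D ^ r ≤ C := by
    apply bdd_of_ev
    · apply ContinuousOn.sub
      · apply ContinuousOn.mul continuousOn_const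
        apply ContinuousOn.log (by fun_prop)
        intro x hx
        have : (0 : ℝ) ≤ x := hx
        positivity
      · exact (continuous_const.mul (Real.continuous_rpow_const hr.le)).continuousOn
    · filter_upwards [ev_log_le (κ / 4) r (by positivity) hr, eventually_ge_atTop (2 : ℝ)]
        with D h3 h4
      have h5 : Real.log (1 + D) ≤ 2 * Real.log D := by
        rw [show (2 : ℝ) * Real.log D = Real.log (D ^ (2 : ℕ)) by rw [Real.log_pow]; norm_num]
        apply Real.log_le_log (by positivity)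
        nlinarith
      linarith
  obtain ⟨C, h0, hC⟩ := hb
  refine ⟨Real.exp C, Real.exp_pos _, fun D hD => ?_⟩
  have h1 : (1 + D) ^ 2 = Real.exp (2 * Real.log (1 + D)) := by
    rw [show (2 : ℝ) * Real.log (1 + D) = ((2 : ℕ) : ℝ) * Real.log (1 + D) by norm_num,
      Real.exp_nat_mul, Real.exp_log (by positivity)]
  rw [h1, ← Real.exp_add]
  apply Real.exp_le_exp.2
  linarith [hC D hD]

theorem dec (h1 : S_ratio) (h2 : S_lowb) (h3 : S_upz) (h4 : S_perRH) (h5 : S_H) : S_dec := by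
  intro hRH
  obtain ⟨βi, hbi0, hbi1, Hi⟩ := ib h1 h2 h3 hRH
  obtain ⟨βp, hbp0, hbp1, Hp⟩ := pt h1 h2 h3 h4 hRH
  obtain ⟨CH, hCH, HH⟩ := h5 hRH
  refine ⟨max βi βp, lt_max_of_lt_left hbi0, max_lt hbi1 hbp1, fun β hβ0 hβ1 φ hφ => ?_⟩
  have hβi : βi < β := lt_of_le_of_lt (le_max_left _ _) hβ0
  have hβp : βp < β := lt_of_le_of_lt (le_max_right _ _) hβ0
  have hβ : 0 < β := by linarith
  obtain ⟨Ci, ci, hCi, hci, hI⟩ := Hi β hβi hβ1 φ hφ
  obtain ⟨Cp, L0, hCp, hL0, hP⟩ := Hp β hβp hβ1 φ hφ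
  obtain ⟨ε, Cφ, c, hε, hCφ, hc, hdec⟩ := hφ.dec
  set C1 : ℝ := 4 + 2 * (CH + 1) / ε + 2 / c + 4 / ci + (CH + 1) with hC1d
  have e1 : 0 < 2 * (CH + 1) / ε := by positivity
  have e2 : 0 < 2 / c := by positivity
  have e3 : 0 < 4 / ci := by positivity
  have hC1a : 4 ≤ C1 := by rw [hC1d]; linarith
  have hC1b : 2 * (CH + 1) ≤ ε * C1 := by
    have : 2 * (CH + 1) / ε ≤ C1 := by rw [hC1d]; linarith
    rwa [div_le_iff₀' hε] at this
  have hC1c : 2 ≤ c * C1 := by
    have : 2 / c ≤ C1 := by rw [hC1d]; linarith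
    rwa [div_le_iff₀' hc] at this
  have hC1e : 4 ≤ ci * C1 := by
    have : 4 / ci ≤ C1 := by rw [hC1d]; linarith
    rwa [div_le_iff₀' hci] at this
  have hC1f : CH + 1 ≤ C1 := by rw [hC1d]; linarith
  set κ : ℝ := min 1 (ε / 2) with hκd
  have hκ : 0 < κ := by rw [hκd]; positivity
  obtain ⟨C5, hC5, H5⟩ := poly_exp κ (β / 2) hκ (by positivity)
  set G2 : ℝ := ∫ K : ℝ, Real.exp (-(ci / 2 * |K| ^ β)) with hG2
  have hG20 : 0 ≤ G2 := integral_nonneg fun K => (Real.exp_pos _).le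
  set e : ℝ := β / 16 with hed
  have he : 0 < e := by rw [hed]; positivity
  set M : ℝ := Ci * G2 + Cφ with hM
  have hM0 : 0 < M := by rw [hM]; positivity
  set C6 : ℝ := 1 + 2 * (C1 / e) ^ (2 / β) with hC6
  have hC60 : 0 < C6 := by rw [hC6]; positivity
  refine ⟨(Cp + 1) * C6 + M * C5, L0, by positivity, hL0, fun L hL t d ht hd hd1 hz => ?_⟩
  have hL1 : 1 ≤ L := hL0.trans hL
  have hLp : 0 < L := by linarith
  set D : ℝ := L * d with hD
  have hDp : 0 < D := by rw [hD]; positivity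
  set Λ : ℝ := Lam t with hΛd
  have hΛ : 2 ≤ Λ := Lam_two t
  set X : ℝ := D ^ (β / 2) with hX
  have hX0 : 0 < X := by rw [hX]; positivity
  have ht1 : 1 ≤ 1 + |t| := by linarith [abs_nonneg t]
  have hT38 : 1 ≤ (1 + |t|) ^ (3 / 8 : ℝ) := Real.one_le_rpow ht1 (by norm_num)
  rw [le_div_iff₀ (by positivity)]
  rcases le_or_gt X (C1 * Λ) with hcase | hcase
  · -- near the zeros
    have q1 := hP L hL t ht
    have q2 : ‖riemannZeta (cl t) * A φ L (cl t) - 1‖ ≤ (Cp + 1) * (1 + |t|) ^ (1 / 4 : ℝ) := by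
      have q3 : ‖riemannZeta (cl t) * A φ L (cl t) - 1‖ ≤
          ‖riemannZeta (cl t) * A φ L (cl t)‖ + 1 := by
        have := norm_sub_le (riemannZeta (cl t) * A φ L (cl t)) 1
        rwa [norm_one] at this
      have q4 : 1 ≤ (1 + |t|) ^ (1 / 4 : ℝ) := Real.one_le_rpow ht1 (by norm_num)
      linarith
    have q3 : 1 + D ≤ C6 * (1 + |t|) ^ (1 / 8 : ℝ) := by
      have q4 : D = X ^ (2 / β) := by
        rw [hX, ← Real.rpow_mul hDp.le]
        have : β / 2 * (2 / β) = 1 := by field_simp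
        rw [this, Real.rpow_one]
      have q5 : X ^ (2 / β) ≤ (C1 * Λ) ^ (2 / β) :=
        Real.rpow_le_rpow hX0.le hcase (by positivity)
      have q6 : Λ ≤ (|t| + 16) ^ e / e := Real.log_le_rpow_div (by positivity) he
      have q7 : C1 * Λ ≤ C1 / e * (|t| + 16) ^ e := by
        calc C1 * Λ ≤ C1 * ((|t| + 16) ^ e / e) := mul_le_mul_of_nonneg_left q6 (by linarith)
          _ = _ := by ring
      have q8 : (C1 * Λ) ^ (2 / β) ≤ (C1 / e * (|t| + 16) ^ e) ^ (2 / β) :=
        Real.rpow_le_rpow (by positivity) q7 (by positivity)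
      have q9 : (C1 / e * (|t| + 16) ^ e) ^ (2 / β) = (C1 / e) ^ (2 / β) * (|t| + 16) ^ (1 / 8 : ℝ) := by
        rw [Real.mul_rpow (by positivity) (by positivity), ← Real.rpow_mul (by positivity)]
        congr 2
        rw [hed]
        field_simp
        norm_num
      have q10 : (|t| + 16) ^ (1 / 8 : ℝ) ≤ 2 * (1 + |t|) ^ (1 / 8 : ℝ) := by
        have := exp_Lam_le t
        have q11 : Real.exp (Lam t / 8) = (|t| + 16) ^ (1 / 8 : ℝ) := by
          rw [← exp_Lam]; congr 1; ring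
        rwa [q11] at this
      have q11 : 1 ≤ (1 + |t|) ^ (1 / 8 : ℝ) := Real.one_le_rpow ht1 (by norm_num)
      have q12 : (C1 / e) ^ (2 / β) * (|t| + 16) ^ (1 / 8 : ℝ) ≤
          (C1 / e) ^ (2 / β) * (2 * (1 + |t|) ^ (1 / 8 : ℝ)) :=
        mul_le_mul_of_nonneg_left q10 (by positivity)
      rw [hC6]
      have q13 : (1 + 2 * (C1 / e) ^ (2 / β)) * (1 + |t|) ^ (1 / 8 : ℝ) =
        (1 + |t|) ^ (1 / 8 : ℝ) + (C1 / e) ^ (2 / β) * (2 * (1 + |t|) ^ (1 / 8 : ℝ)) := by ring
      rw [q13]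
      linarith
    have q4 : (1 + |t|) ^ (1 / 4 : ℝ) * (1 + |t|) ^ (1 / 8 : ℝ) = (1 + |t|) ^ (3 / 8 : ℝ) := by
      rw [← Real.rpow_add (by linarith)]; norm_num
    calc ‖riemannZeta (cl t) * A φ L (cl t) - 1‖ * (1 + D) ≤
        ((Cp + 1) * (1 + |t|) ^ (1 / 4 : ℝ)) * (C6 * (1 + |t|) ^ (1 / 8 : ℝ)) :=
          mul_le_mul q2 q3 (by positivity) (by positivity)
      _ = (Cp + 1) * C6 * ((1 + |t|) ^ (1 / 4 : ℝ) * (1 + |t|) ^ (1 / 8 : ℝ)) := by ring
      _ = (Cp + 1) * C6 * (1 + |t|) ^ (3 / 8 : ℝ) := by rw [q4]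
      _ ≤ ((Cp + 1) * C6 + M * C5) * (1 + |t|) ^ (3 / 8 : ℝ) := by
          apply mul_le_mul_of_nonneg_right _ (by linarith)
          have : 0 ≤ M * C5 := by positivity
          linarith
  · -- far from the zeros
    have hXΛ : 4 * Λ ≤ X := by
      have : 4 * Λ ≤ C1 * Λ := mul_le_mul_of_nonneg_right hC1a (by linarith)
      linarith
    have hX8 : 8 ≤ X := by linarith
    have hD1 : 1 ≤ D := by
      by_contra hh
      push Not at hh
      have : X ≤ 1 := Real.rpow_le_one hDp.le hh.le (by positivity)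
      linarith
    have hXs : X ≤ D ^ (1 / 2 : ℝ) := Real.rpow_le_rpow_of_exponent_le hD1 (by linarith)
    have hDs : D ^ (1 / 2 : ℝ) * D ^ (1 / 2 : ℝ) = D := by
      rw [← Real.rpow_add hDp]; norm_num
    have hXD : 4 * X ≤ D := by
      have h4D : 4 ≤ D ^ (1 / 2 : ℝ) := by linarith
      calc 4 * X ≤ D ^ (1 / 2 : ℝ) * D ^ (1 / 2 : ℝ) :=
            mul_le_mul h4D hXs hX0.le (by linarith)
        _ = D := hDs
    have hDβ : X * X = D ^ β := by
      rw [hX, ← Real.rpow_add hDp]; congr 1; ring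
    have hhβ : C1 * X ≤ (D / 2) ^ β := by
      rw [Real.div_rpow hDp.le (by norm_num), le_div_iff₀ (by positivity), ← hDβ]
      have : (2 : ℝ) ^ β ≤ 2 := by
        have := Real.rpow_le_rpow_of_exponent_le (by norm_num : (1 : ℝ) ≤ 2) hβ1.le
        rwa [Real.rpow_one] at this
      have h7 : 2 * C1 ≤ X := by
        have : C1 * 2 ≤ C1 * Λ := mul_le_mul_of_nonneg_left hΛ (by linarith)
        linarith
      calc C1 * X * 2 ^ β ≤ C1 * X * 2 := mul_le_mul_of_nonneg_left this (by positivity)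
        _ = (2 * C1) * X := by ring
        _ ≤ X * X := mul_le_mul_of_nonneg_right h7 hX0.le
    set a : ℝ := Λ / 16 with had
    have ha : 0 < a := by rw [had]; linarith
    have haX : a ≤ X := by rw [had]; linarith
    set h : ℝ := D / 2 with hhd
    have hh : 0 < h := by rw [hhd]; linarith
    have hh1 : 1 ≤ h := by rw [hhd]; linarith
    have hζ : riemannZeta (cl t) ≠ 0 := by
      intro h0
      have := hz t h0
      rw [sub_self, abs_zero] at this
      linarith
    -- the region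
    have hreg : ∀ z : ℂ, -X ≤ z.re → z.re ≤ a → -h ≤ z.im → z.im ≤ h →
        ‖riemannZeta (cl t)‖ ≤ (|t| + 2) ^ CH * ‖riemannZeta (cl t + z / L)‖ ∧
        cl t + z / L ≠ 1 ∧ riemannZeta (cl t + z / L) ≠ 0 := by
      intro z z1 z2 z3 z4
      have w1 : (z / (L : ℂ)).re = z.re / L := by
        rw [Complex.div_ofReal_re]
      have w2 : (z / (L : ℂ)).im = z.im / L := by
        rw [Complex.div_ofReal_im]
      have w3 : |(z / (L : ℂ)).re| ≤ d / 4 := by
        rw [w1, abs_div, abs_of_pos hLp, div_le_iff₀ hLp, abs_le]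
        have : d / 4 * L = D / 4 := by rw [hD]; ring
        rw [this]
        constructor <;> linarith
      have w4 : |(z / (L : ℂ)).im| ≤ d / 2 := by
        rw [w2, abs_div, abs_of_pos hLp, div_le_iff₀ hLp, abs_le]
        have : d / 2 * L = D / 2 := by rw [hD]; ring
        rw [this]
        constructor <;> linarith
      have w5 := HH t d hd hd1 hz (z / L) w3 w4
      refine ⟨w5, ?_, ?_⟩
      · intro w6
        have w7 := congrArg Complex.re w6
        have w8 : (cl t + z / (L : ℂ)).re = 1 / 2 + (z / (L : ℂ)).re := by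
          rw [Complex.add_re]
          congr 1
          unfold cl
          simp
        rw [w8, Complex.one_re] at w7
        have := (abs_le.1 w3).2
        linarith
      · intro w6
        rw [w6, norm_zero, mul_zero] at w5
        exact hζ (norm_le_zero_iff.1 w5)
    have hTC : (|t| + 2) ^ CH ≤ Real.exp (CH * Λ) := by
      have : Real.exp (CH * Λ) = (|t| + 16) ^ CH := by
        rw [mul_comm]; exact exp_Lam t CH
      rw [this]
      exact Real.rpow_le_rpow (by positivity) (by linarith) hCH.le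
    -- the function
    set G : ℂ → ℂ := fun z => riemannZeta (cl t) * (riemannZeta (cl t + z / L))⁻¹ * Lap φ z with hG
    set U : Set ℂ := {s | s ≠ 1 ∧ riemannZeta s ≠ 0} with hU
    have hUo : IsOpen U := by
      have c1 : ContinuousOn riemannZeta ({1}ᶜ : Set ℂ) := fun s hs =>
        (differentiableAt_riemannZeta hs).continuousAt.continuousWithinAt
      have c2 := c1.isOpen_inter_preimage isOpen_compl_singleton
        (isOpen_compl_singleton (x := (0 : ℂ)))
      exact c2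
    set Ω : Set ℂ := (fun z : ℂ => cl t + z / L) ⁻¹' U with hΩd
    have hΩ : IsOpen Ω := hUo.preimage (by fun_prop)
    have hGd : DifferentiableOn ℂ G Ω := by
      intro z hz'
      apply DifferentiableAt.differentiableWithinAt
      have hz1 : cl t + z / L ≠ 1 := hz'.1
      have hz2 : riemannZeta (cl t + z / L) ≠ 0 := hz'.2
      have g1 : DifferentiableAt ℂ (fun z : ℂ => cl t + z / L) z := by fun_prop
      have g2 : DifferentiableAt ℂ (fun z : ℂ => riemannZeta (cl t + z / L)) z :=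
        DifferentiableAt.comp z (differentiableAt_riemannZeta hz1) g1
      exact ((g2.inv hz2).const_mul _).mul (lap_diff hφ z)
    have hGn : ∀ z : ℂ, -X ≤ z.re → z.re ≤ a → -h ≤ z.im → z.im ≤ h →
        ‖G z‖ ≤ Real.exp (CH * Λ) * (Cφ * Real.exp (max z.re 0 - ε * max (-z.re) 0 - c * |z.im| ^ β)) := by
      intro z z1 z2 z3 z4
      obtain ⟨w1, w2, w3⟩ := hreg z z1 z2 z3 z4
      rw [hG]
      simp only
      rw [norm_mul, norm_mul, norm_inv]
      apply mul_le_mul _ (hdec z) (norm_nonneg _) (Real.exp_pos _).le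
      rw [← div_eq_mul_inv, div_le_iff₀ (norm_pos_iff.2 w3)]
      exact w1.trans (mul_le_mul_of_nonneg_right hTC (norm_nonneg _))
    have hG0 : G 0 = 1 := by
      rw [hG]
      simp only [zero_div, add_zero]
      rw [lap_zero hφ, mul_one, mul_inv_cancel₀ hζ]
    have k1 : κ ≤ 1 := min_le_left _ _
    have k2 : κ ≤ ε / 2 := min_le_right _ _
    have hcon := contour hGd hΩ (a := a) (a' := X) (h := h)
      (B1 := Cφ * Real.exp (-(κ * X))) (B2 := Cφ * Real.exp (-(κ * X))) ha hX0 hh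
      (fun z z1 z2 z3 z4 => (hreg z z1 z2 z3 z4).2)
      (by
        intro x x1 x2 y hy
        have y1 : |y| = h := by
          rcases hy with rfl | rfl
          · exact abs_of_pos hh
          · rw [abs_neg]; exact abs_of_pos hh
        have y2 : -h ≤ y ∧ y ≤ h := abs_le.1 y1.le
        have re1 : ((x : ℂ) + (y : ℂ) * I).re = x := by simp
        have im1 : ((x : ℂ) + (y : ℂ) * I).im = y := by simp
        have n1 := hGn ((x : ℂ) + (y : ℂ) * I) (by rw [re1]; exact x1) (by rw [re1]; exact x2)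
          (by rw [im1]; exact y2.1) (by rw [im1]; exact y2.2)
        rw [re1, im1, y1] at n1
        rw [norm_mul, norm_inv]
        have n2 : ‖(x : ℂ) + (y : ℂ) * I‖⁻¹ ≤ 1 := by
          apply inv_le_one_of_one_le₀
          have := Complex.abs_im_le_norm ((x : ℂ) + (y : ℂ) * I)
          rw [im1, y1] at this
          linarith
        have n3 : ‖G ((x : ℂ) + (y : ℂ) * I)‖ ≤ Cφ * Real.exp (-(κ * X)) := by
          refine n1.trans ?_
          rw [mul_left_comm, ← Real.exp_add]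
          apply mul_le_mul_of_nonneg_left _ hCφ.le
          apply Real.exp_le_exp.2
          have m1 : max x 0 ≤ a := max_le x2 ha.le
          have m2 : 0 ≤ ε * max (-x) 0 := mul_nonneg hε.le (le_max_right _ _)
          have m3 : c * (C1 * X) ≤ c * h ^ β := mul_le_mul_of_nonneg_left hhβ hc.le
          have m4 : 2 * X ≤ c * C1 * X := mul_le_mul_of_nonneg_right hC1c hX0.le
          have m5 : (CH + 1) * Λ ≤ C1 * Λ := mul_le_mul_of_nonneg_right hC1f (by linarith)
          have m6 : a ≤ Λ := by rw [had]; linarith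
          have m7 : κ * X ≤ 1 * X := mul_le_mul_of_nonneg_right k1 hX0.le
          linarith
        calc ‖(x : ℂ) + (y : ℂ) * I‖⁻¹ * ‖G ((x : ℂ) + (y : ℂ) * I)‖ ≤
            1 * (Cφ * Real.exp (-(κ * X))) :=
              mul_le_mul n2 n3 (norm_nonneg _) (by norm_num)
          _ = _ := one_mul _)
      (by
        intro y y1 y2
        have re1 : (((-X : ℝ) : ℂ) + (y : ℂ) * I).re = -X := by simp
        have im1 : (((-X : ℝ) : ℂ) + (y : ℂ) * I).im = y := by simp
        have n1 := hGn (((-X : ℝ) : ℂ) + (y : ℂ) * I) (by rw [re1]) (by rw [re1]; linarith)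
          (by rw [im1]; exact y1) (by rw [im1]; exact y2)
        rw [re1, im1, neg_neg, max_eq_right (by linarith : -X ≤ 0), max_eq_left hX0.le] at n1
        rw [norm_mul, norm_inv]
        have n2 : ‖((-X : ℝ) : ℂ) + (y : ℂ) * I‖⁻¹ ≤ 1 := by
          apply inv_le_one_of_one_le₀
          have := Complex.abs_re_le_norm (((-X : ℝ) : ℂ) + (y : ℂ) * I)
          rw [re1, abs_neg, abs_of_pos hX0] at this
          linarith
        have n3 : ‖G (((-X : ℝ) : ℂ) + (y : ℂ) * I)‖ ≤ Cφ * Real.exp (-(κ * X)) := by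
          refine n1.trans ?_
          rw [mul_left_comm, ← Real.exp_add]
          apply mul_le_mul_of_nonneg_left _ hCφ.le
          apply Real.exp_le_exp.2
          have m1 : 0 ≤ c * |y| ^ β := by positivity
          have m2 : 2 * (CH + 1) * Λ ≤ ε * C1 * Λ := mul_le_mul_of_nonneg_right hC1b (by linarith)
          have m3 : ε * (C1 * Λ) ≤ ε * X := mul_le_mul_of_nonneg_left hcase.le hε.le
          have m4 : κ * X ≤ ε / 2 * X := mul_le_mul_of_nonneg_right k2 hX0.le
          linarith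
        calc ‖((-X : ℝ) : ℂ) + (y : ℂ) * I‖⁻¹ * ‖G (((-X : ℝ) : ℂ) + (y : ℂ) * I)‖ ≤
            1 * (Cφ * Real.exp (-(κ * X))) :=
              mul_le_mul n2 n3 (norm_nonneg _) (by norm_num)
          _ = _ := one_mul _)
    rw [hG0] at hcon
    -- Perron
    obtain ⟨p1, p2⟩ := h4 hRH β φ hβ hφ L a t hLp ha
    set F : ℝ → ℂ := fun K => riemannZeta (cl t) *
      ((riemannZeta (cl t + ((a : ℂ) + (K : ℂ) * I) / (L : ℂ)))⁻¹ *
        Lap φ ((a : ℂ) + (K : ℂ) * I) / ((a : ℂ) + (K : ℂ) * I)) with hF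
    have hFi : Integrable F := p1.const_mul _
    have hFb : ∀ K, ‖F K‖ ≤ Ci * Real.exp (Λ / 8) * Real.exp (-(ci * |K| ^ β)) :=
      fun K => hI L hL1 t ht K
    have hFt := tail hFi (M := Ci * Real.exp (Λ / 8)) (by positivity) hci hβ hh hFb
    have hFG : ∀ y : ℝ, F y = ((a : ℂ) + (y : ℂ) * I)⁻¹ * G ((a : ℂ) + (y : ℂ) * I) := by
      intro y
      rw [hF, hG]
      simp only
      rw [div_eq_mul_inv]
      ring
    have hFG' : (∫ y in (-h)..h, ((a : ℂ) + (y : ℂ) * I)⁻¹ * G ((a : ℂ) + (y : ℂ) * I)) =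
        ∫ y in (-h)..h, F y := intervalIntegral.integral_congr fun y _ => (hFG y).symm
    rw [hFG'] at hcon
    have hA : riemannZeta (cl t) * A φ L (cl t) = 1 / (2 * (Real.pi : ℂ)) * ∫ K, F K := by
      rw [p2, hF, integral_const_mul]
      ring
    have hfin : ‖riemannZeta (cl t) * A φ L (cl t) - 1‖ ≤ M * (1 + D) * Real.exp (-(κ * X)) := by
      have r1 : riemannZeta (cl t) * A φ L (cl t) - 1 =
          1 / (2 * (Real.pi : ℂ)) * ((∫ K, F K) - ∫ K in (-h)..h, F K) +
          (1 / (2 * (Real.pi : ℂ)) * (∫ y in (-h)..h, F y) - 1) := by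
        rw [hA]; ring
      rw [r1]
      have h8 : ‖(1 / (2 * (Real.pi : ℂ)))‖ ≤ 1 := by
        rw [norm_div, norm_one, norm_mul, Complex.norm_real]
        simp only [Complex.norm_ofNat, Real.norm_eq_abs, abs_of_pos Real.pi_pos]
        rw [div_le_one (by positivity)]
        linarith [Real.pi_gt_three]
      have r2 : ‖1 / (2 * (Real.pi : ℂ)) * ((∫ K, F K) - ∫ K in (-h)..h, F K)‖ ≤
          Ci * G2 * Real.exp (-(κ * X)) := by
        rw [norm_mul]
        have r3 : Ci * Real.exp (Λ / 8) * Real.exp (-(ci / 2 * h ^ β)) ≤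
            Ci * Real.exp (-(κ * X)) := by
          rw [mul_assoc, ← Real.exp_add]
          apply mul_le_mul_of_nonneg_left _ hCi.le
          apply Real.exp_le_exp.2
          have m3 : ci / 2 * (C1 * X) ≤ ci / 2 * h ^ β :=
            mul_le_mul_of_nonneg_left hhβ (by positivity)
          have m4 : 4 * X ≤ ci * C1 * X := mul_le_mul_of_nonneg_right hC1e hX0.le
          have m7 : κ * X ≤ 1 * X := mul_le_mul_of_nonneg_right k1 hX0.le
          linarith
        have r4 := hFt.trans (mul_le_mul_of_nonneg_right r3 hG20)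
        calc _ ≤ 1 * (Ci * Real.exp (-(κ * X)) * G2) :=
              mul_le_mul h8 r4 (norm_nonneg _) (by norm_num)
          _ = _ := by ring
      have r3 : (a + X) * (Cφ * Real.exp (-(κ * X))) + h * (Cφ * Real.exp (-(κ * X))) ≤
          D * (Cφ * Real.exp (-(κ * X))) := by
        rw [← add_mul]
        apply mul_le_mul_of_nonneg_right _ (by positivity)
        rw [hhd]
        linarith
      have hE : 0 ≤ Real.exp (-(κ * X)) := (Real.exp_pos _).le
      have r4 := norm_add_le (1 / (2 * (Real.pi : ℂ)) * ((∫ K, F K) - ∫ K in (-h)..h, F K))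
          (1 / (2 * (Real.pi : ℂ)) * (∫ y in (-h)..h, F y) - 1)
      have r5 : Ci * G2 * Real.exp (-(κ * X)) + D * (Cφ * Real.exp (-(κ * X))) ≤
          M * (1 + D) * Real.exp (-(κ * X)) := by
        rw [hM]
        have r6 : (Ci * G2 + Cφ) * (1 + D) * Real.exp (-(κ * X)) =
          Ci * G2 * Real.exp (-(κ * X)) + D * (Cφ * Real.exp (-(κ * X))) +
          (Ci * G2 * D + Cφ) * Real.exp (-(κ * X)) := by ring
        rw [r6]
        have : 0 ≤ (Ci * G2 * D + Cφ) * Real.exp (-(κ * X)) := by positivity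
        linarith
      linarith
    have hX' : X = D ^ (β / 2) := rfl
    have h55 := H5 D hDp.le
    rw [← hX'] at h55
    calc ‖riemannZeta (cl t) * A φ L (cl t) - 1‖ * (1 + D) ≤
        M * (1 + D) * Real.exp (-(κ * X)) * (1 + D) :=
          mul_le_mul_of_nonneg_right hfin (by positivity)
      _ = M * ((1 + D) ^ 2 * Real.exp (-(κ * X))) := by ring
      _ ≤ M * C5 := mul_le_mul_of_nonneg_left h55 hM0.le
      _ ≤ ((Cp + 1) * C6 + M * C5) * 1 := by
          have : 0 ≤ (Cp + 1) * C6 := by positivity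
          linarith
      _ ≤ _ := mul_le_mul_of_nonneg_left hT38 (by positivity)

end Pool.Agent.Q296.BD
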