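import Pool.Agent.Q296.BD.Ib

set_option autoImplicit false

/-! # Project BD, job P3: the pointwise bound -/

namespace Pool.Agent.Q296.BD

open Complex MeasureTheory Filter Topology Set
open Pool.Agent.Q286.BD

/-- `exp (-c |K| ^ β)` is integrable -/
lemma integrable_gev {c β : ℝ} (hc : 0 < c) (hβ : 0 < β) :
    Integrable (fun K : ℝ => Real.exp (-(c * |K| ^ β))) := by
  have h1 : IntegrableOn (fun K : ℝ => Real.exp (-(c * |K| ^ β))) (Ioi 0) := by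
    have h2 : IntegrableOn (fun K : ℝ => Real.exp (-c * K ^ β)) (Ioi 0) := by
      by_contra h
      have h3 := integral_exp_neg_mul_rpow hβ hc
      rw [integral_undef h] at h3
      have h4 : 0 < c ^ (-1 / β) * Real.Gamma (1 / β + 1) :=
        mul_pos (Real.rpow_pos_of_pos hc _) (Real.Gamma_pos_of_pos (by positivity))
      linarith
    refine h2.congr_fun (fun K hK => ?_) measurableSet_Ioi
    have hK' : (0 : ℝ) < K := hK
    simp only [abs_of_pos hK', neg_mul]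
  have h2 : IntegrableOn (fun K : ℝ => Real.exp (-(c * |K| ^ β))) (Iic 0) := by
    rw [integrableOn_Iic_iff_integrableOn_Iio]
    have h3 := (Measure.measurePreserving_neg (volume : Measure ℝ)).integrableOn_comp_preimage
      (Homeomorph.neg ℝ).measurableEmbedding (f := fun K : ℝ => Real.exp (-(c * |K| ^ β))) (s := Ioi 0)
    have h4 := h3.2 h1
    have h5 : ((-·) : ℝ → ℝ) ⁻¹' (Ioi 0) = Iio 0 := by
      ext x; simp
    have h6 : (fun K : ℝ => Real.exp (-(c * |K| ^ β))) ∘ (Neg.neg : ℝ → ℝ) =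
        fun K : ℝ => Real.exp (-(c * |K| ^ β)) := by
      funext x; simp
    have h7 : (Neg.neg : ℝ → ℝ) ⁻¹' (Ioi 0) = Iio 0 := h5
    rw [h6, h7] at h4
    exact h4
  have h3 := h2.union h1
  rwa [Iic_union_Ioi, integrableOn_univ] at h3

lemma exp_Lam_le (t : ℝ) : Real.exp (Lam t / 8) ≤ 2 * (1 + |t|) ^ (1 / 8 : ℝ) := by
  have h1 : Real.exp (Lam t / 8) = (|t| + 16) ^ (1 / 8 : ℝ) := by
    rw [← exp_Lam]; congr 1; ring
  rw [h1]
  have h2 : (|t| + 16) ^ (1 / 8 : ℝ) ≤ (16 * (1 + |t|)) ^ (1 / 8 : ℝ) :=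
    Real.rpow_le_rpow (by positivity) (by linarith [abs_nonneg t]) (by norm_num)
  rw [Real.mul_rpow (by norm_num) (by positivity)] at h2
  have h3 : (16 : ℝ) ^ (1 / 8 : ℝ) ≤ 2 := by
    have h4 : (16 : ℝ) ^ (1 / 8 : ℝ) ≤ (2 ^ (8 : ℝ)) ^ (1 / 8 : ℝ) :=
      Real.rpow_le_rpow (by norm_num) (by norm_num) (by norm_num)
    rw [← Real.rpow_mul (by norm_num)] at h4
    norm_num at h4 ⊢
    exact h4
  have h5 : (16 : ℝ) ^ (1 / 8 : ℝ) * (1 + |t|) ^ (1 / 8 : ℝ) ≤ 2 * (1 + |t|) ^ (1 / 8 : ℝ) :=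
    mul_le_mul_of_nonneg_right h3 (by positivity)
  linarith

theorem pt (h1 : S_ratio) (h2 : S_lowb) (h3 : S_upz) (h4 : S_perRH) : S_pt := by
  intro hRH
  obtain ⟨β0, hb0, hb1, H⟩ := ib h1 h2 h3 hRH
  refine ⟨β0, hb0, hb1, fun β hβ0 hβ1 φ hφ => ?_⟩
  obtain ⟨C, c, hC, hc, hI⟩ := H β hβ0 hβ1 φ hφ
  have hβ : 0 < β := by linarith
  have hint := integrable_gev hc hβ
  set G : ℝ := ∫ K : ℝ, Real.exp (-(c * |K| ^ β)) with hG
  have hG0 : 0 ≤ G := integral_nonneg fun K => (Real.exp_pos _).le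
  refine ⟨2 * C * (G + 1), 1, by positivity, le_rfl, fun L hL t ht => ?_⟩
  have hL0 : 0 < L := by linarith
  have hΛ := Lam_two t
  have ha : 0 < Lam t / 16 := by linarith
  obtain ⟨h5, h6⟩ := h4 hRH β φ hβ hφ L (Lam t / 16) t hL0 ha
  rw [h6]
  have h7 : riemannZeta (cl t) * (1 / (2 * (Real.pi : ℂ)) * ∫ K : ℝ,
      (riemannZeta (cl t + (((Lam t / 16 : ℝ) : ℂ) + (K : ℂ) * I) / (L : ℂ)))⁻¹ *
        Lap φ (((Lam t / 16 : ℝ) : ℂ) + (K : ℂ) * I) / (((Lam t / 16 : ℝ) : ℂ) + (K : ℂ) * I)) =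
      1 / (2 * (Real.pi : ℂ)) * ∫ K : ℝ, riemannZeta (cl t) *
      ((riemannZeta (cl t + (((Lam t / 16 : ℝ) : ℂ) + (K : ℂ) * I) / (L : ℂ)))⁻¹ *
        Lap φ (((Lam t / 16 : ℝ) : ℂ) + (K : ℂ) * I) / (((Lam t / 16 : ℝ) : ℂ) + (K : ℂ) * I)) := by
    rw [integral_const_mul]; ring
  rw [h7, norm_mul]
  have h8 : ‖(1 / (2 * (Real.pi : ℂ)))‖ ≤ 1 := by
    rw [norm_div, norm_one, norm_mul, Complex.norm_real]
    simp only [Complex.norm_ofNat, Real.norm_eq_abs, abs_of_pos Real.pi_pos]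
    rw [div_le_one (by positivity)]
    linarith [Real.pi_gt_three]
  have h9 : ‖∫ K : ℝ, riemannZeta (cl t) *
      ((riemannZeta (cl t + (((Lam t / 16 : ℝ) : ℂ) + (K : ℂ) * I) / (L : ℂ)))⁻¹ *
        Lap φ (((Lam t / 16 : ℝ) : ℂ) + (K : ℂ) * I) / (((Lam t / 16 : ℝ) : ℂ) + (K : ℂ) * I))‖ ≤
      ∫ K : ℝ, C * Real.exp (Lam t / 8) * Real.exp (-(c * |K| ^ β)) := by
    apply norm_integral_le_of_norm_le (hint.const_mul _)
    exact Eventually.of_forall fun K => hI L hL t ht K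
  have h9b : ∫ K : ℝ, C * Real.exp (Lam t / 8) * Real.exp (-(c * |K| ^ β)) =
      C * Real.exp (Lam t / 8) * G := by rw [integral_const_mul]
  rw [h9b] at h9
  have h10 := exp_Lam_le t
  have h11 : (1 + |t|) ^ (1 / 8 : ℝ) ≤ (1 + |t|) ^ (1 / 4 : ℝ) :=
    Real.rpow_le_rpow_of_exponent_le (by linarith [abs_nonneg t]) (by norm_num)
  have h12 : 0 ≤ (1 + |t|) ^ (1 / 4 : ℝ) := by positivity
  calc _ ≤ 1 * (C * Real.exp (Lam t / 8) * G) :=
        mul_le_mul h8 h9 (norm_nonneg _) (by norm_num)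
    _ ≤ C * (2 * (1 + |t|) ^ (1 / 4 : ℝ)) * G := by
        rw [one_mul]
        apply mul_le_mul_of_nonneg_right _ hG0
        exact mul_le_mul_of_nonneg_left (by linarith) hC.le
    _ ≤ 2 * C * (G + 1) * (1 + |t|) ^ (1 / 4 : ℝ) := by nlinarith [mul_nonneg hC.le h12]

end Pool.Agent.Q296.BD
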