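import Pool.Agent.Q286.BD.Spec

set_option autoImplicit false

/-! # Project BD: the bound for the integrand of Perron's formula (used for the jobs P3, P4) -/

namespace Pool.Agent.Q296.BD

open Complex MeasureTheory Filter Topology Set
open Pool.Agent.Q286.BD

/-- the point of the contour -/
noncomputable def pz (L a t K : ℝ) : ℂ := cl t + ((a : ℂ) + (K : ℂ) * I) / (L : ℂ)

lemma pz_eq {L : ℝ} (hL : 0 < L) (a t K : ℝ) :
    pz L a t K = 1 / 2 + ((a / L : ℝ) : ℂ) + ((t : ℂ) + ((K / L : ℝ) : ℂ)) * I := by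
  have : (L : ℂ) ≠ 0 := by exact_mod_cast hL.ne'
  unfold pz cl
  push_cast
  field_simp
  ring

lemma pz_eq' {L : ℝ} (hL : 0 < L) (a t K : ℝ) :
    pz L a t K = 1 / 2 + ((a / L : ℝ) : ℂ) + ((t + K / L : ℝ) : ℂ) * I := by
  rw [pz_eq hL]; push_cast; ring

lemma Lam_ge (t : ℝ) : Real.exp 1 ≤ Lam t := by
  have h1 : Real.log 16 ≤ Lam t :=
    Real.log_le_log (by norm_num) (by linarith [abs_nonneg t])
  have h2 : Real.log 16 = 4 * Real.log 2 := by
    rw [show (16 : ℝ) = 2 ^ (4 : ℕ) by norm_num, Real.log_pow]; norm_num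
  have := Real.log_two_gt_d9
  have := Real.exp_one_lt_d9
  linarith

lemma Lam_two (t : ℝ) : 2 ≤ Lam t := by
  have := Lam_ge t
  have := Real.exp_one_gt_d9
  linarith

lemma logLam (t : ℝ) : 1 ≤ Real.log (Lam t) := by
  rw [Real.le_log_iff_exp_le (by linarith [Lam_two t])]
  exact Lam_ge t

lemma ML_le (t : ℝ) : ML t ≤ Lam t := by
  unfold ML
  exact div_le_self (by linarith [Lam_two t]) (logLam t)

lemma ML_nonneg (t : ℝ) : 0 ≤ ML t := by
  unfold ML
  exact div_nonneg (by linarith [Lam_two t]) (by linarith [logLam t])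

lemma exp_Lam (t r : ℝ) : Real.exp (Lam t * r) = (|t| + 16) ^ r := by
  unfold Lam
  rw [Real.rpow_def_of_pos (by positivity)]

/-- a continuous function on the half line which is eventually nonpositive is bounded above -/
lemma bdd_of_ev (f : ℝ → ℝ) (hf : ContinuousOn f (Ici 0)) (he : ∀ᶠ K in atTop, f K ≤ 0) :
    ∃ C : ℝ, 0 ≤ C ∧ ∀ K : ℝ, 0 ≤ K → f K ≤ C := by
  obtain ⟨K0, hK0⟩ := Filter.eventually_atTop.1 he
  obtain ⟨C, hC⟩ := (isCompact_Icc (a := (0 : ℝ)) (b := K0)).bddAbove_image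
    (hf.mono fun x hx => hx.1)
  refine ⟨max C 0, le_max_right _ _, fun K hK => ?_⟩
  rcases le_total K K0 with h | h
  · exact le_trans (hC (mem_image_of_mem f ⟨hK, h⟩)) (le_max_left _ _)
  · exact le_trans (hK0 K h) (le_max_right _ _)

lemma ev_log_le (η r : ℝ) (hη : 0 < η) (hr : 0 < r) :
    ∀ᶠ K : ℝ in atTop, Real.log K ≤ η * K ^ r := by
  have h := (isLittleO_log_rpow_atTop hr).bound hη
  filter_upwards [h, eventually_gt_atTop (0 : ℝ)] with K hK hK0
  have h1 : ‖K ^ r‖ = K ^ r := Real.norm_of_nonneg (Real.rpow_nonneg hK0.le _)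
  rw [h1] at hK
  exact le_trans (Real.le_norm_self _) hK

/-- (F3) -/
lemma f3 (A β1 β δ : ℝ) (hA : 0 ≤ A) (h1 : 0 < β1) (h2 : β1 < β) (hδ : 0 < δ) :
    ∃ C : ℝ, 0 ≤ C ∧ ∀ K : ℝ, 0 ≤ K →
      A * K ^ β1 * Real.log (2 + 16 * K) ≤ δ * K ^ β + C := by
  have hb : ∃ C : ℝ, 0 ≤ C ∧ ∀ K : ℝ, 0 ≤ K →
      A * K ^ β1 * Real.log (2 + 16 * K) - δ * K ^ β ≤ C := by
    apply bdd_of_ev
    · apply ContinuousOn.sub
      · apply ContinuousOn.mul
        · apply ContinuousOn.mul continuousOn_const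
          exact (Real.continuous_rpow_const h1.le).continuousOn
        · apply ContinuousOn.log
          · fun_prop
          · intro x hx
            have : (0 : ℝ) ≤ x := hx
            positivity
      · exact (continuous_const.mul (Real.continuous_rpow_const (by linarith))).continuousOn
    · have hη : 0 < δ / (2 * A + 1) := by positivity
      filter_upwards [ev_log_le _ (β - β1) hη (by linarith), eventually_ge_atTop (18 : ℝ)]
        with K h3 h4
      have hK0 : 0 < K := by linarith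
      have h5 : Real.log (2 + 16 * K) ≤ 2 * Real.log K := by
        rw [show (2 : ℝ) * Real.log K = Real.log (K ^ (2 : ℕ)) by rw [Real.log_pow]; norm_num]
        apply Real.log_le_log (by positivity)
        nlinarith
      have h6 : 0 ≤ A * K ^ β1 := mul_nonneg hA (Real.rpow_nonneg hK0.le _)
      have h7 : K ^ β = K ^ β1 * K ^ (β - β1) := by
        rw [← Real.rpow_add hK0]; congr 1; ring
      have h8 : A * K ^ β1 * Real.log (2 + 16 * K) ≤
          A * K ^ β1 * (2 * (δ / (2 * A + 1) * K ^ (β - β1))) :=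
        mul_le_mul_of_nonneg_left (by linarith) h6
      have h9 : A * K ^ β1 * (2 * (δ / (2 * A + 1) * K ^ (β - β1))) =
          (2 * A / (2 * A + 1)) * (δ * K ^ β) := by
        rw [h7]; field_simp
      have h10 : 2 * A / (2 * A + 1) ≤ 1 := by
        rw [div_le_one (by positivity)]; linarith
      have h11 : 0 ≤ δ * K ^ β := by positivity
      have h12 : (2 * A / (2 * A + 1)) * (δ * K ^ β) ≤ 1 * (δ * K ^ β) :=
        mul_le_mul_of_nonneg_right h10 h11
      linarith
  obtain ⟨C, h0, hC⟩ := hb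
  exact ⟨C, h0, fun K hK => by linarith [hC K hK]⟩

/-- (F4) -/
lemma f4 (A B β δ : ℝ) (hA : 0 ≤ A) (hB : 0 ≤ B) (h2 : 0 < β) (hδ : 0 < δ) :
    ∃ C : ℝ, 0 ≤ C ∧ ∀ K : ℝ, 0 ≤ K →
      B * Real.log (3 * K + 16) + A * Real.log (3 * K + 16) * Real.log (2 + 16 * K) ≤
        δ * K ^ β + C := by
  have hb : ∃ C : ℝ, 0 ≤ C ∧ ∀ K : ℝ, 0 ≤ K →
      B * Real.log (3 * K + 16) + A * Real.log (3 * K + 16) * Real.log (2 + 16 * K) -
        δ * K ^ β ≤ C := by
    apply bdd_of_ev
    · have hc1 : ContinuousOn (fun K : ℝ => Real.log (3 * K + 16)) (Ici 0) := by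
        apply ContinuousOn.log
        · fun_prop
        · intro x hx
          have : (0 : ℝ) ≤ x := hx
          positivity
      have hc2 : ContinuousOn (fun K : ℝ => Real.log (2 + 16 * K)) (Ici 0) := by
        apply ContinuousOn.log
        · fun_prop
        · intro x hx
          have : (0 : ℝ) ≤ x := hx
          positivity
      exact ((continuousOn_const.mul hc1).add ((continuousOn_const.mul hc1).mul hc2)).sub
        (continuous_const.mul (Real.continuous_rpow_const h2.le)).continuousOn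
    · set η : ℝ := min 1 (δ / (2 * B + 4 * A + 1)) with hηd
      have hη : 0 < η := by rw [hηd]; positivity
      filter_upwards [ev_log_le η (β / 2) hη (by linarith), eventually_ge_atTop (19 : ℝ)]
        with K h3 h4
      have hK0 : 0 < K := by linarith
      have hlK : 0 ≤ Real.log K := Real.log_nonneg (by linarith)
      have h5 : Real.log (2 + 16 * K) ≤ 2 * Real.log K := by
        rw [show (2 : ℝ) * Real.log K = Real.log (K ^ (2 : ℕ)) by rw [Real.log_pow]; norm_num]
        apply Real.log_le_log (by positivity)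
        nlinarith
      have h6 : Real.log (3 * K + 16) ≤ 2 * Real.log K := by
        rw [show (2 : ℝ) * Real.log K = Real.log (K ^ (2 : ℕ)) by rw [Real.log_pow]; norm_num]
        apply Real.log_le_log (by positivity)
        nlinarith
      have h5' : 0 ≤ Real.log (2 + 16 * K) := Real.log_nonneg (by linarith)
      have h6' : 0 ≤ Real.log (3 * K + 16) := Real.log_nonneg (by linarith)
      set M := K ^ (β / 2) with hM
      have hM1 : 1 ≤ M := Real.one_le_rpow (by linarith) (by linarith)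
      have h7 : K ^ β = M * M := by
        rw [hM, ← Real.rpow_add hK0]; congr 1; ring
      have h8 : Real.log (3 * K + 16) * Real.log (2 + 16 * K) ≤ (2 * (η * M)) * (2 * (η * M)) :=
        mul_le_mul (by linarith) (by linarith) h5' (by positivity)
      have h9 : A * Real.log (3 * K + 16) * Real.log (2 + 16 * K) ≤ A * (4 * η ^ 2 * (M * M)) := by
        rw [mul_assoc]
        refine mul_le_mul_of_nonneg_left (h8.trans (le_of_eq ?_)) hA
        ring
      have h10 : B * Real.log (3 * K + 16) ≤ B * (2 * η * (M * M)) := by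
        refine mul_le_mul_of_nonneg_left ?_ hB
        have : η * M ≤ η * (M * M) :=
          mul_le_mul_of_nonneg_left (by nlinarith) hη.le
        linarith
      have hη1 : η ≤ 1 := min_le_left _ _
      have hη2 : η * (2 * B + 4 * A + 1) ≤ δ := by
        have := min_le_right 1 (δ / (2 * B + 4 * A + 1))
        rwa [← hηd, le_div_iff₀ (by positivity)] at this
      have h11 : (B * (2 * η) + A * (4 * η ^ 2)) ≤ δ := by
        have : A * (4 * η ^ 2) ≤ A * (4 * η) :=
          mul_le_mul_of_nonneg_left (by nlinarith) hA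
        nlinarith
      have hMM : 0 ≤ M * M := by positivity
      rw [h7]
      nlinarith [mul_le_mul_of_nonneg_right h11 hMM]
  obtain ⟨C, h0, hC⟩ := hb
  exact ⟨C, h0, fun K hK => by linarith [hC K hK]⟩

/-- (F2) -/
lemma f2 (A δ : ℝ) (hA : 0 ≤ A) (hδ : 0 < δ) :
    ∃ C : ℝ, 0 ≤ C ∧ ∀ t : ℝ, A * ML t ≤ δ * Lam t + C := by
  refine ⟨A * Real.exp (A / δ), by positivity, fun t => ?_⟩
  have hl := logLam t
  have hL := Lam_two t
  rcases le_total (A / δ) (Real.log (Lam t)) with h | h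
  · have h1 : A * ML t ≤ δ * Lam t := by
      unfold ML
      rw [mul_div_assoc', div_le_iff₀ (by linarith)]
      rw [div_le_iff₀ hδ] at h
      nlinarith
    have : 0 ≤ A * Real.exp (A / δ) := by positivity
    linarith
  · have h1 : Lam t ≤ Real.exp (A / δ) := by
      rw [← Real.log_le_iff_le_exp (by linarith)]; exact h
    have h2 : A * ML t ≤ A * Real.exp (A / δ) :=
      mul_le_mul_of_nonneg_left ((ML_le t).trans h1) hA
    have : 0 ≤ δ * Lam t := by positivity
    linarith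

/-- the quotient of two values of zeta -/
lemma ratio_bound (h1 : S_ratio) (h2 : S_lowb) (h3 : S_upz) (hRH : RiemannHypothesis) :
    ∃ β0 : ℝ, 0 < β0 ∧ β0 < 1 ∧ ∀ β : ℝ, β0 < β → β < 1 → ∀ c : ℝ, 0 < c → ∃ C1 : ℝ, 0 ≤ C1 ∧
      ∀ L : ℝ, 1 ≤ L → ∀ t : ℝ, |t| ≤ Real.exp (10 * L) → ∀ K : ℝ,
      ‖riemannZeta (cl t)‖ * ‖(riemannZeta (pz L (Lam t / 16) t K))⁻¹‖ ≤
        Real.exp (Lam t / 16 + c / 2 * |K| ^ β + C1) := by
  obtain ⟨CR, hCR, hR⟩ := h1 hRH
  obtain ⟨Cb, hCb, hb⟩ := h2 hRH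
  obtain ⟨Cu, hCu, hu⟩ := h3 hRH
  have hd : (0 : ℝ) < 32 * CR + 1 := by positivity
  refine ⟨32 * CR / (32 * CR + 1), by positivity, by rw [div_lt_one hd]; linarith,
    fun β hβ0 hβ1 c hc => ?_⟩
  set β0 : ℝ := 32 * CR / (32 * CR + 1) with hβ0d
  have hβ0p : 0 < β0 := by rw [hβ0d]; positivity
  set β1 : ℝ := (β0 + β) / 2 with hβ1d
  have hb01 : β0 < β1 := by rw [hβ1d]; linarith
  have hb1 : β1 < β := by rw [hβ1d]; linarith
  have hb1p : 0 < β1 := by linarith
  have hb11 : β1 < 1 := by linarith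
  have hexp : CR * (1 / β1 - 1) ≤ 1 / 32 := by
    have h4 : 1 / β1 ≤ 1 / β0 := one_div_le_one_div_of_le hβ0p hb01.le
    have h5 : 1 / β0 = 1 + 1 / (32 * CR) := by
      rw [hβ0d]; field_simp
    have h6 : CR * (1 / β1 - 1) ≤ CR * (1 / (32 * CR)) :=
      mul_le_mul_of_nonneg_left (by linarith) hCR.le
    have h7 : CR * (1 / (32 * CR)) = 1 / 32 := by field_simp
    linarith
  have hexp0 : 0 ≤ 1 / β1 - 1 := by
    have : 1 ≤ 1 / β1 := by rw [le_div_iff₀ hb1p]; linarith
    linarith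
  obtain ⟨CA, hCA0, hCA⟩ := f2 (CR * Real.log 18) (1 / 32) (by positivity) (by norm_num)
  obtain ⟨CB, hCB0, hCB⟩ := f3 CR β1 β (c / 2) hCR.le hb1p hb1 (by linarith)
  obtain ⟨CC, hCC0, hCC⟩ := f4 Cb Cu β (c / 2) hCb.le hCu.le (by linarith) (by linarith)
  refine ⟨CA + CB + CC, by positivity, fun L hL t ht K => ?_⟩
  have hL0 : 0 < L := by linarith
  have hΛ := Lam_two t
  have hΛe := Lam_ge t
  have hlΛ := logLam t
  set Λ := Lam t with hΛd
  set a := Λ / 16 with had
  have ha0 : 0 < a := by rw [had]; linarith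
  have hΛL : Λ ≤ 16 * L := by
    have h4 : |t| + 16 ≤ Real.exp (16 * L) := by
      have h5 : Real.exp (16 * L) = Real.exp (10 * L) * Real.exp (6 * L) := by
        rw [← Real.exp_add]; congr 1; ring
      have h6 : (17 : ℝ) ≤ Real.exp (6 * L) := by
        have h7 : Real.exp 6 ≤ Real.exp (6 * L) := Real.exp_le_exp.2 (by linarith)
        have h8 : Real.exp 6 = Real.exp 1 ^ 6 := by
          rw [← Real.exp_nat_mul]; norm_num
        have h9 : (2 : ℝ) ^ 6 ≤ Real.exp 1 ^ 6 :=
          pow_le_pow_left₀ (by norm_num) (by linarith [Real.exp_one_gt_d9]) 6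
        norm_num at h9
        linarith
      have h7 : 1 ≤ Real.exp (10 * L) := Real.one_le_exp (by positivity)
      rw [h5]
      nlinarith
    have : Λ = Real.log (|t| + 16) := rfl
    rw [this, Real.log_le_iff_le_exp (by positivity)]
    exact h4
  have hx0 : 0 < a / L := by positivity
  have hx1 : a / L ≤ 1 := by
    rw [div_le_one hL0, had]; linarith
  have hpw0 : 0 ≤ |K| ^ β := Real.rpow_nonneg (abs_nonneg _) _
  by_cases hK : |K| ≤ L * (1 + |t| / 2)
  · -- the ratio bound
    have hy : |K / L| ≤ 1 + |t| / 2 := by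
      rw [abs_div, abs_of_pos hL0, div_le_iff₀ hL0]
      linarith
    have h4 := hR t (K / L) (a / L) hx0 hx1 hy
    rw [← pz_eq hL0] at h4
    have h5 : |K / L| / (a / L) = 16 * |K| / Λ := by
      rw [abs_div, abs_of_pos hL0, had]
      field_simp
    rw [h5] at h4
    have h6 : ‖riemannZeta (cl t)‖ * ‖(riemannZeta (pz L a t K))⁻¹‖ ≤
        Real.exp (CR * ML t * Real.log (2 + 16 * |K| / Λ)) := by
      rw [norm_inv]
      rcases (norm_nonneg (riemannZeta (pz L a t K))).eq_or_lt with h | h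
      · rw [← h]; simp; positivity
      · rw [← div_eq_mul_inv, div_le_iff₀ h]; exact h4
    refine h6.trans (Real.exp_le_exp.2 ?_)
    rcases le_total |K| (Λ ^ (1 / β1)) with h7 | h7
    · have h8 : 2 + 16 * |K| / Λ ≤ 18 * Λ ^ (1 / β1 - 1) := by
        have h9 : |K| / Λ ≤ Λ ^ (1 / β1 - 1) := by
          rw [Real.rpow_sub_one (by positivity)]
          exact div_le_div_of_nonneg_right h7 (by positivity)
        have h10 : 1 ≤ Λ ^ (1 / β1 - 1) := Real.one_le_rpow (by linarith) hexp0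
        rw [mul_div_assoc]
        linarith
      have h9 : Real.log (2 + 16 * |K| / Λ) ≤ Real.log 18 + (1 / β1 - 1) * Real.log Λ := by
        refine (Real.log_le_log (by positivity) h8).trans (le_of_eq ?_)
        rw [Real.log_mul (by norm_num) (by positivity), Real.log_rpow (by positivity)]
      have h10 : CR * ML t * Real.log (2 + 16 * |K| / Λ) ≤
          CR * ML t * (Real.log 18 + (1 / β1 - 1) * Real.log Λ) :=
        mul_le_mul_of_nonneg_left h9 (mul_nonneg hCR.le (ML_nonneg t))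
      have h11 : ML t * Real.log Λ = Λ := by
        unfold ML
        rw [← hΛd]
        field_simp
      have h12 : CR * ML t * (Real.log 18 + (1 / β1 - 1) * Real.log Λ) =
          CR * Real.log 18 * ML t + CR * (1 / β1 - 1) * Λ := by
        rw [show CR * (1 / β1 - 1) * Λ = CR * (1 / β1 - 1) * (ML t * Real.log Λ) by rw [h11]]
        ring
      have h13 := hCA t
      rw [← hΛd] at h13
      have h14 : CR * (1 / β1 - 1) * Λ ≤ 1 / 32 * Λ :=
        mul_le_mul_of_nonneg_right hexp (by linarith)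
      have h15 : 0 ≤ c / 2 * |K| ^ β := by positivity
      linarith
    · have hΛK : Λ ≤ |K| ^ β1 := by
        have h8 : (Λ ^ (1 / β1)) ^ β1 ≤ |K| ^ β1 :=
          Real.rpow_le_rpow (by positivity) h7 hb1p.le
        rwa [← Real.rpow_mul (by positivity), one_div_mul_cancel hb1p.ne', Real.rpow_one] at h8
      have h8 : Real.log (2 + 16 * |K| / Λ) ≤ Real.log (2 + 16 * |K|) := by
        apply Real.log_le_log (by positivity)
        have : 16 * |K| / Λ ≤ 16 * |K| := div_le_self (by positivity) (by linarith)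
        linarith
      have h8' : 0 ≤ Real.log (2 + 16 * |K| / Λ) := by
        apply Real.log_nonneg
        have : 0 ≤ 16 * |K| / Λ := by positivity
        linarith
      have h9 : CR * ML t * Real.log (2 + 16 * |K| / Λ) ≤
          CR * |K| ^ β1 * Real.log (2 + 16 * |K|) := by
        apply mul_le_mul _ h8 h8' (by positivity)
        exact mul_le_mul_of_nonneg_left ((ML_le t).trans hΛK) hCR.le
      have h10 := hCB |K| (abs_nonneg K)
      linarith
  · -- far away
    push Not at hK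
    have hKL : L ≤ |K| := by nlinarith [abs_nonneg t]
    have htK : |t| ≤ 2 * |K| := by
      have : L * (|t| / 2) ≤ |K| := by nlinarith [abs_nonneg t]
      nlinarith [abs_nonneg t]
    have h4 := hu t
    have h5 := hb (t + K / L) (a / L) hx0 hx1
    rw [← pz_eq' hL0] at h5
    have hK16 : (0 : ℝ) < 3 * |K| + 16 := by positivity
    have h6 : Λ ≤ Real.log (3 * |K| + 16) := by
      have : Λ = Real.log (|t| + 16) := rfl
      rw [this]
      exact Real.log_le_log (by positivity) (by linarith [abs_nonneg K])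
    have h7 : Lam (t + K / L) ≤ Real.log (3 * |K| + 16) := by
      unfold Lam
      apply Real.log_le_log (by positivity)
      have h8 : |t + K / L| ≤ |t| + |K / L| := abs_add_le _ _
      have h9 : |K / L| ≤ |K| := by
        rw [abs_div, abs_of_pos hL0]
        exact div_le_self (abs_nonneg _) hL
      linarith
    have h8 : Real.log (2 + 1 / (a / L)) ≤ Real.log (2 + 16 * |K|) := by
      apply Real.log_le_log (by positivity)
      have h9 : 1 / (a / L) ≤ 16 * L := by
        rw [one_div_div, had, div_le_iff₀ (by linarith)]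
        nlinarith
      linarith
    have h8' : 0 ≤ Real.log (2 + 1 / (a / L)) := by
      apply Real.log_nonneg
      have : 0 ≤ 1 / (a / L) := by positivity
      linarith
    have h9 : ‖riemannZeta (cl t)‖ ≤ Real.exp (Cu * Real.log (3 * |K| + 16)) :=
      h4.trans (Real.exp_le_exp.2 (mul_le_mul_of_nonneg_left ((ML_le t).trans h6) hCu.le))
    have h10 : ‖(riemannZeta (pz L a t K))⁻¹‖ ≤
        Real.exp (Cb * Real.log (3 * |K| + 16) * Real.log (2 + 16 * |K|)) := by
      rw [norm_inv]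
      have h11 : Real.exp (-(Cb * Real.log (3 * |K| + 16) * Real.log (2 + 16 * |K|))) ≤
          ‖riemannZeta (pz L a t K)‖ := by
        refine le_trans (Real.exp_le_exp.2 ?_) h5
        have h12 : Cb * Lam (t + K / L) * Real.log (2 + 1 / (a / L)) ≤
            Cb * Real.log (3 * |K| + 16) * Real.log (2 + 16 * |K|) := by
          apply mul_le_mul _ h8 h8'
          · exact mul_nonneg hCb.le (Real.log_nonneg (by linarith [abs_nonneg K]))
          · exact mul_le_mul_of_nonneg_left h7 hCb.le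
        linarith
      have h12 := inv_anti₀ (Real.exp_pos _) h11
      rwa [← Real.exp_neg, neg_neg] at h12
    refine (mul_le_mul h9 h10 (norm_nonneg _) (Real.exp_pos _).le).trans ?_
    rw [← Real.exp_add]
    apply Real.exp_le_exp.2
    have h11 := hCC |K| (abs_nonneg K)
    have : 0 ≤ Λ / 16 := by linarith
    linarith

/-- **the integrand bound** -/
theorem ib (h1 : S_ratio) (h2 : S_lowb) (h3 : S_upz) (hRH : RiemannHypothesis) :
    ∃ β0 : ℝ, 0 < β0 ∧ β0 < 1 ∧ ∀ β : ℝ, β0 < β → β < 1 → ∀ φ : ℝ → ℝ, Wt β φ →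
      ∃ C c : ℝ, 0 < C ∧ 0 < c ∧
      ∀ L : ℝ, 1 ≤ L → ∀ t : ℝ, |t| ≤ Real.exp (10 * L) → ∀ K : ℝ,
      ‖riemannZeta (cl t) * ((riemannZeta (cl t + (((Lam t / 16 : ℝ) : ℂ) + (K : ℂ) * I) / (L : ℂ)))⁻¹ *
        Lap φ (((Lam t / 16 : ℝ) : ℂ) + (K : ℂ) * I) / (((Lam t / 16 : ℝ) : ℂ) + (K : ℂ) * I))‖ ≤
        C * Real.exp (Lam t / 8) * Real.exp (-(c * |K| ^ β)) := by
  obtain ⟨β0, hb0, hb1, H⟩ := ratio_bound h1 h2 h3 hRH
  refine ⟨β0, hb0, hb1, fun β hβ0 hβ1 φ hφ => ?_⟩
  obtain ⟨ε, Cφ, c, hε, hCφ, hc, hdec⟩ := hφ.dec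
  obtain ⟨C1, hC1, H1⟩ := H β hβ0 hβ1 c hc
  refine ⟨8 * Cφ * Real.exp C1, c / 2, by positivity, by positivity, fun L hL t ht K => ?_⟩
  have h4 := H1 L hL t ht K
  have hΛ := Lam_two t
  set a : ℝ := Lam t / 16 with had
  have ha : 1 / 8 ≤ a := by rw [had]; linarith
  have h5 := hdec ((a : ℂ) + (K : ℂ) * I)
  have hre : ((a : ℂ) + (K : ℂ) * I).re = a := by simp
  have him : ((a : ℂ) + (K : ℂ) * I).im = K := by simp
  rw [hre, him, max_eq_left (by linarith : (0 : ℝ) ≤ a),
    max_eq_right (by linarith : -a ≤ 0)] at h5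
  have h6 : ‖((a : ℂ) + (K : ℂ) * I)⁻¹‖ ≤ 8 := by
    rw [norm_inv]
    have h7 : 1 / 8 ≤ ‖(a : ℂ) + (K : ℂ) * I‖ := by
      have := Complex.abs_re_le_norm ((a : ℂ) + (K : ℂ) * I)
      rw [hre, abs_of_pos (by linarith)] at this
      linarith
    have := inv_anti₀ (by norm_num : (0 : ℝ) < 1 / 8) h7
    norm_num at this ⊢
    exact this
  have h7 : riemannZeta (cl t) * ((riemannZeta (cl t + ((a : ℂ) + (K : ℂ) * I) / (L : ℂ)))⁻¹ *
        Lap φ ((a : ℂ) + (K : ℂ) * I) / ((a : ℂ) + (K : ℂ) * I)) =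
      (riemannZeta (cl t) * (riemannZeta (pz L a t K))⁻¹) * Lap φ ((a : ℂ) + (K : ℂ) * I) *
        ((a : ℂ) + (K : ℂ) * I)⁻¹ := by
    unfold pz
    rw [div_eq_mul_inv]
    ring
  rw [h7, norm_mul, norm_mul, norm_mul]
  have h8 : ‖riemannZeta (cl t)‖ * ‖(riemannZeta (pz L a t K))⁻¹‖ *
      ‖Lap φ ((a : ℂ) + (K : ℂ) * I)‖ * ‖((a : ℂ) + (K : ℂ) * I)⁻¹‖ ≤
      Real.exp (a + c / 2 * |K| ^ β + C1) * (Cφ * Real.exp (a - ε * 0 - c * |K| ^ β)) * 8 := by
    apply mul_le_mul _ h6 (norm_nonneg _) (by positivity)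
    exact mul_le_mul h4 h5 (norm_nonneg _) (Real.exp_pos _).le
  refine h8.trans (le_of_eq ?_)
  have h9 : Real.exp (a + c / 2 * |K| ^ β + C1) * (Cφ * Real.exp (a - ε * 0 - c * |K| ^ β)) * 8 =
      8 * Cφ * (Real.exp (a + c / 2 * |K| ^ β + C1) * Real.exp (a - ε * 0 - c * |K| ^ β)) := by ring
  rw [h9, ← Real.exp_add]
  have h10 : Real.exp (a + c / 2 * |K| ^ β + C1 + (a - ε * 0 - c * |K| ^ β)) =
      Real.exp C1 * Real.exp (Lam t / 8) * Real.exp (-(c / 2 * |K| ^ β)) := by
    rw [← Real.exp_add, ← Real.exp_add]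
    congr 1
    rw [had]
    ring
  rw [h10]
  ring

end Pool.Agent.Q296.BD
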